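import Pool.Agent.Helper29.T5b.Garb
import Pool.Agent.Helper37.T5b.OneEvent

/-!
# T5b (MP_12a1af), line 1: sizes for FAR and for the crude pairs across SPLIT
-/

set_option autoImplicit false

namespace Pool.Agent.Helper29.T5b

open Finset Pool.Agent.Helper5.ET Pool.Agent.Helper27.T4
open Pool.Agent.Helper37.T5b Pool.Agent.Helper84.T5b
open Pool.Agent.Helper27.T5b (l1 l2 l1_mono l2_sub_le l1_add_l2)
open Pool.Agent.Helper30.T5b (NL)

variable {m k : ℕ}

/-- FAR: distance of the main positions -/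
theorem far_gap {l' l : ℕ} (h : CaseFar m k l' l) :
    mL m k l' + 1024 * Gm m k (era (mL m k l')) ≤ mL m k l := by
  unfold CaseFar Near at h
  rw [ZZ_eq] at h
  have h1 := Gm_pos m k (era (mL m k l'))
  omega

/-- crude pairs across SPLIT: there is no extra digit between the states -/
theorem crude_gap (hm : 0 < m) {l' l : ℕ} (hll : l' ≤ l) (h0 : bb 0 ≤ mL m k l')
    (hk : kt m k ≤ era (mL m k l')) (h : CaseSplitCrude m k l' l) :
    mL m k l' + 200 * Gm m k (era (mL m k l')) ≤ mL m k l := by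
  obtain ⟨hN, hS, hD⟩ := h
  have hsl : SplitEv m k (mL m k l') (mL m k l) := by
    have h1 : sv m k (mL m k l') + 1 = sv m k (mL m k l) := hS.1
    have h2 : dv m k (mL m k l') - k = dv m k (mL m k l) - k := hS.2
    rcases event_of_near hm hll h0 hk hN with a | a | a | a | a | a | a
    · have := a.sv_eq
      omega
    · have e1 := a.sv'
      have e2 := a.sv
      omega
    · have e1 := a.sv'
      have e2 := a.sv
      omega
    · have e1 := a.sv'
      have e2 := a.sv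
      omega
    · have e1 := a.sv'
      have e2 := a.sv
      omega
    · exact a
    · have e1 := a.sv'
      have e2 := a.sv
      omega
  have hsp := hsl.spec
  have he := hsl.era_eq
  have hG : Gm m k (era (mL m k l')) = SS m (sL m k l) := by
    have h1 : sL m k l = lv m k (era (mL m k l)) + 1 := hsl.sv
    unfold Gm
    rw [he, if_pos hsp, h1]
  have hins : ∑ z ∈ Icc (l1 (ins m k) l') (l1 (ins m k) l), ins m k z = 0 := by
    apply sum_eq_zero
    intro z hz
    rw [mem_Icc] at hz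
    have hz1 : mL m k l' ≤ z := hz.1
    have hz2 : z ≤ mL m k l := hz.2
    apply ins_zero
    · intro hzb
      have e1 : era z = era (mL m k l) := by
        have c1 := era_mono hz1
        have c2 := era_mono hz2
        omega
      have c3 := hsl.nE_lt
      have c4 := ut_le_nE m k (lv m k (era (mL m k l)) + 1)
      have c5 := bb_le_ut m (lv m k (era (mL m k l)) + 1)
      have c6 : kt m (lv m k (era (mL m k l)) + 1) = era (mL m k l) := hsp
      rw [c6] at c5
      rw [e1] at hzb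
      omega
    · exact hsl.still z hz1 hz2
  have h2 := l2_sub_le (ins m k) hll
  rw [hins, add_zero] at h2
  have h3 := l1_add_l2 (ins m k) l
  have h4 := l1_add_l2 (ins m k) l'
  have h5 : mL m k l = l1 (ins m k) l := rfl
  have h6 : mL m k l' = l1 (ins m k) l' := rfl
  rw [hG]
  omega

/-- **two-sided size**: the elements of the state `l'` against `y` main digits -/
theorem exists_far_size (hm : 2 ≤ m) (k : ℕ) : ∃ l0, ∀ l' ≥ l0, ∀ y : ℕ,
    mL m k l' + 175 * Gm m k (era (mL m k l')) ≤ y →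
    (NL m k (l' + 1) : ℝ) ≤ Nj (mL m k l') * Real.exp (8 / 100 * ((y : ℝ) - mL m k l')) := by
  obtain ⟨l0, h0⟩ := exists_NL_garb hm k
  refine ⟨l0, fun l' hl y hy => (h0 l' hl).trans ?_⟩
  apply mul_le_mul_of_nonneg_left _ (Nat.cast_nonneg _)
  apply Real.exp_le_exp.2
  have h1 : (mL m k l' : ℝ) + 175 * (Gm m k (era (mL m k l')) : ℝ) ≤ y := by exact_mod_cast hy
  linarith

/-- **one-sided size**: the elements of the state `l'` against a position `> 5 * mL l'` -/
theorem exists_one_size (hm : 2 ≤ m) (k : ℕ) : ∃ l0, ∀ l' ≥ l0, ∀ y : ℕ,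
    5 * mL m k l' < y → NL m k (l' + 1) ≤ Nj (41 * y / 200) := by
  have hm0 : 0 < m := by omega
  obtain ⟨l0, h0⟩ := exists_NL_garb hm k
  obtain ⟨l1', h1'⟩ := Pool.Agent.Helper30.T5b.exists_late (k := k) hm0 0 0
  refine ⟨max l0 l1', fun l' hl y hy => ?_⟩
  have a1 := h0 l' ((le_max_left _ _).trans hl)
  obtain ⟨_, a2, a3, _, _⟩ := h1' l' ((le_max_right _ _).trans hl)
  have a2' : bb 0 ≤ mL m k l' := a2
  have a4 := Gm_small (k := k) hm0 (j := era (mL m k l')) a3
  have a5 := (era_spec (mL m k l') a2').1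
  set x := mL m k l' with hx
  set G := Gm m k (era x) with hG
  set j := 41 * y / 200 with hj
  have b1 : 2 ^ 20 * G ≤ x :=
    ((Nat.mul_le_mul_right G (Nat.pow_le_pow_right (by norm_num) (by norm_num))).trans a4).trans a5
  have b2 : 2 ^ 64 ≤ x := by
    have := bb_ge_pow 0
    omega
  have b3 : x + x / 64 ≤ j := by omega
  have b4 : Nj x * (10 ^ 6) ^ (x / 64) ≤ Nj j := by
    refine le_trans (Nat.mul_le_mul_left _ ?_)
      (Pool.Agent.Helper30.ET.Nj_lower (show x ≤ j by omega))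
    exact (Nat.pow_le_pow_left (by norm_num) _).trans
      (Nat.pow_le_pow_right (by norm_num) (by omega))
  have b5 : Real.exp (14 * (G : ℝ)) ≤ ((10 : ℝ) ^ 6) ^ (x / 64) := by
    have c1 : Real.exp 14 ≤ ((10 : ℝ) ^ 6) ^ 2 := by
      have d1 := Real.exp_one_lt_d9
      have d2 : Real.exp 14 = Real.exp 1 ^ 14 := by
        rw [← Real.exp_nat_mul]
        norm_num
      rw [d2]
      calc Real.exp 1 ^ 14 ≤ (3 : ℝ) ^ 14 := pow_le_pow_left₀ (Real.exp_pos _).le (by linarith) 14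
        _ ≤ _ := by norm_num
    calc Real.exp (14 * (G : ℝ)) = Real.exp 14 ^ G := by
          rw [mul_comm, Real.exp_nat_mul]
      _ ≤ (((10 : ℝ) ^ 6) ^ 2) ^ G := pow_le_pow_left₀ (Real.exp_pos _).le c1 G
      _ = ((10 : ℝ) ^ 6) ^ (2 * G) := by rw [← pow_mul]
      _ ≤ _ := pow_le_pow_right₀ (by norm_num) (by omega)
  have b6 : (NL m k (l' + 1) : ℝ) ≤ ((Nj x * (10 ^ 6) ^ (x / 64) : ℕ) : ℝ) := by
    rw [Nat.cast_mul, Nat.cast_pow, Nat.cast_pow]
    exact a1.trans (mul_le_mul_of_nonneg_left (by exact_mod_cast b5) (Nat.cast_nonneg _))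
  exact (by exact_mod_cast b6 : NL m k (l' + 1) ≤ _).trans b4

/-- **multiplicity**: the position against the distance -/
theorem exists_mult (hm : 2 ≤ m) (k : ℕ) : ∃ l0, ∀ l' ≥ l0, ∀ l ≥ l', mL m k l ≤ 5 * mL m k l' →
    (mL m k l : ℝ) ≤ 160 * (l : ℝ) ^ ((3 : ℝ) / m) * (Gm m k (era (mL m k l')) : ℝ) := by
  have hm0 : 0 < m := by omega
  obtain ⟨l1', h1'⟩ := Pool.Agent.Helper30.T5b.exists_late (k := k) hm0 0 0
  obtain ⟨l2', h2'⟩ := exists_lv hm0 k 1
  refine ⟨max l1' l2', fun l' hl l hll h5 => ?_⟩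
  obtain ⟨_, a2, a3, _, _⟩ := h1' l' ((le_max_left _ _).trans hl)
  have a2' : bb 0 ≤ mL m k l' := a2
  have a3' : kt m k ≤ era (mL m k l') := a3
  have a4 := h2' l' ((le_max_right _ _).trans hl)
  set x := mL m k l' with hx
  have hsv : SS m (sv m k x - 1) ≤ Gm m k (era x) :=
    (SS_mono m (by have := sv_le_lv_succ m k x; omega)).trans (SS_lv_le_Gm m k _)
  have h1 := Pool.Agent.Helper30.T5b.le_rpow_mul_SS (i := 1) hm0 a2' a3'
    (by have := lv_le_sv m k x; omega)
  have hxl : (x : ℝ) ≤ l := by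
    have c1 : x ≤ l' := Pool.Agent.Helper27.T5b.l1_le (ins m k) l'
    exact_mod_cast c1.trans hll
  have h3 : (x : ℝ) ^ ((((1 : ℕ) : ℝ) + 2) / m) ≤ (l : ℝ) ^ ((3 : ℝ) / m) := by
    have e : (((1 : ℕ) : ℝ) + 2) = 3 := by norm_num
    rw [e]
    exact Real.rpow_le_rpow (Nat.cast_nonneg _) hxl (by positivity)
  have h4 : (SS m (sv m k x - 1) : ℝ) ≤ Gm m k (era x) := by exact_mod_cast hsv
  have h5' : (mL m k l : ℝ) ≤ 5 * x := by exact_mod_cast h5
  calc (mL m k l : ℝ) ≤ 5 * x := h5'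
    _ ≤ 5 * (2 ^ (1 + 4) * (x : ℝ) ^ ((((1 : ℕ) : ℝ) + 2) / m) * (SS m (sv m k x - 1) : ℝ)) := by
        linarith
    _ ≤ 5 * (2 ^ (1 + 4) * (l : ℝ) ^ ((3 : ℝ) / m) * (Gm m k (era x) : ℝ)) := by
        gcongr
    _ = _ := by ring

end Pool.Agent.Helper29.T5b
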