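import Pool.Agent.Helper97.T5.FarPr
import Pool.Agent.Helper27.T5b.Range
import Pool.Agent.Helper84.T5b.Top
import Pool.Agent.Helper29.T5b.FarSize

/-!
# T5b (MP_12a1af), line 1: FAR and the crude pairs across SPLIT

`far : Blk CaseFar RpC`, `splitCrude : Blk CaseSplitCrude RpC`.
-/

set_option autoImplicit false

namespace Pool.Agent.Helper29.T5b

open Finset Pool.Agent.Helper27.T4
open Pool.Agent.Helper5.ET (Nj era bb pr av cnt pre own pr_prime pr_inj pr_ne_two)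
open Pool.Agent.Helper25.T5
open Pool.Agent.Helper42.T5.Pr Pool.Agent.Helper84.T5b Pool.Agent.Helper37.T5b
open Pool.Agent.Helper97.T5 (Lay sd far2_pr far1_pr)
open Pool.Agent.Helper22.HW Pool.Agent.Helper57.T5 Pool.Agent.Helper39.T5
open Pool.Agent.Helper30.T5b (NL RT)
open Pool.Agent.Helper27.T5b (ct ct_main ct_mono l1)

variable {m k : ℕ}

/-! ## the keys -/

/-- the key of the main family `f` at the masked main vector `v` -/
def fkey (l : ℕ) (f : Fin 3) (v : Fin 3 → ℕ) : Key :=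
  Key.J l (Sum.inl f) (Sum.elim v (fun _ => 0))

theorem aJ_main (m k s l : ℕ) (f : Fin 3) : aJ m k s l (Sum.inl f) = av (mL m k l) f := by
  show ct (ins m k) own (ex m k) (Sum.inl f) l = _
  rw [ct_main]
  rfl

theorem aJ_le_of_le {l x : ℕ} (s : ℕ) (h : l ≤ x) (f : Fin 3) :
    av (mL m k l) f ≤ aJ m k s x (Sum.inl f) := by
  rw [← aJ_main m k s l f]
  exact ct_mono _ h

theorem pow_dvd_Jn {l x : ℕ} (s : ℕ) (h : l ≤ x) (f : Fin 3) :
    pr f ^ av (mL m k l) f ∣ Jn m k s x :=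
  (pow_dvd_pow (pr f) (aJ_le_of_le s h f)).trans
    (pow_dvd_NN (pJ k s) (aJ m k s x) (Sum.inl f))

theorem pow_le_NL (hm : 0 < m) {l : ℕ} (hl : bb 0 ≤ mL m k l) (f : Fin 3) :
    pr f ^ av (mL m k l) f ≤ NL m k l := by
  have h1 := Pool.Agent.Helper27.T5b.Jn_mul_RT (Pool.Agent.Helper27.T5b.cpl_self (k := k) hm hl)
  have h2 : Jn m k (sL m k l) l ∣ NL m k l := ⟨_, h1.symm⟩
  exact Nat.le_of_dvd (Pool.Agent.Helper27.T5b.NL_pos m k l) ((pow_dvd_Jn _ le_rfl f).trans h2)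

theorem Xg_le (hm : 0 < m) {l : ℕ} (hl : bb 0 ≤ mL m k l) {x : Fin 3 → ℕ}
    (hx : x ∈ Xg pr (av (mL m k l))) (g : Fin 3) : x g ≤ NL m k l := by
  unfold Xg at hx
  rw [Fintype.mem_piFinset] at hx
  have h1 := hx g
  unfold Ug at h1
  rw [mem_insert, mem_filter, mem_range] at h1
  rcases h1 with h1 | h1
  · rw [h1]
    exact Pool.Agent.Helper27.T5b.NL_pos m k l
  · exact h1.1.le.trans (pow_le_NL hm hl g)

theorem key_mem (hm : 0 < m) {l : ℕ} (hl : bb 0 ≤ mL m k l) (f : Fin 3) {x : Fin 3 → ℕ}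
    (hx : x ∈ Xg pr (av (mL m k l))) :
    fkey l f (Helper25.T5.mk (pre (mL m k l) f) x) ∈ keysOf m k l := by
  unfold keysOf fkey
  refine mem_union_left _ (mem_union_left _ (mem_image.2 ⟨(Sum.inl f,
    Sum.elim (Helper25.T5.mk (pre (mL m k l) f) x) (fun _ => 0)), ?_, rfl⟩))
  rw [mem_product, Fintype.mem_piFinset]
  refine ⟨mem_univ _, ?_⟩
  rintro (g | g)
  · rw [mem_range]
    show Helper25.T5.mk (pre (mL m k l) f) x g < Bd m k l
    unfold Helper25.T5.mk Bd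
    have h1 := Xg_le hm hl hx g
    split_ifs
    · omega
    · omega
  · rw [mem_range]
    show 0 < Bd m k l
    unfold Bd
    omega

theorem lay_real (hm : 0 < m) {l : ℕ} (hl : bb 0 ≤ mL m k l) {K : Finset Key}
    (hK : keysOf m k l ⊆ K) : Lay (Mk m k) K (mL m k l) (fkey l) := by
  refine ⟨?_, ?_, ?_⟩
  · intro f x hx
    exact hK (key_mem hm hl f hx)
  · intro f g x _ y _ h
    unfold fkey at h
    simp only [Key.J.injEq, Sum.inl.injEq, true_and] at h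
    refine ⟨h.1, ?_⟩
    funext i
    exact congrFun h.2 (Sum.inl i)
  · intro f x _
    show pr f ^ av (mL m k l) f ∣
      pJ k (sL m k l) (Sum.inl f) ^ aJ m k (sL m k l) (ef m k l 0) (Sum.inl f)
    exact pow_dvd_pow _ (aJ_le_of_le _ (Pool.Agent.Helper27.T5b.ef_bounds hm k l 0).1.le f)

theorem key_ne {l l' : ℕ} (h : l ≠ l') (f g : Fin 3) (x y : Fin 3 → ℕ) :
    fkey l f x ≠ fkey l' g y := by
  intro he
  unfold fkey at he
  simp only [Key.J.injEq] at he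
  exact h he.1

/-! ## the residues of an element -/

/-- the main vector -/
def mainV (x : JF → ℕ) : Fin 3 → ℕ := fun f => x (Sum.inl f)

theorem mask_eq (m k l : ℕ) (f : Fin 3) (x : JF → ℕ) :
    maskJ (preJ m k l (Sum.inl f)) x =
      Sum.elim (Helper25.T5.mk (pre (mL m k l) f) (mainV x)) (fun _ => 0) := by
  funext i
  unfold maskJ preJ
  rcases i with g | g
  · simp only [mem_image, Sum.inl.injEq, exists_eq_right, Sum.elim_inl]
    rfl
  · simp only [mem_image, reduceCtorEq, and_false, exists_false, if_false, Sum.elim_inr]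

theorem main_mem {l : ℕ} {x : JF → ℕ} (hx : x ∈ XJ m k l) :
    mainV x ∈ Xg pr (av (mL m k l)) := by
  unfold XJ at hx
  rw [Fintype.mem_piFinset] at hx
  unfold Xg
  rw [Fintype.mem_piFinset]
  intro f
  have h1 := hx (Sum.inl f)
  unfold Ug
  split_ifs at h1 with h0
  · rw [mem_singleton] at h1
    exact mem_insert.2 (Or.inl h1)
  · rw [aJ_main] at h1
    exact mem_insert_of_mem h1

theorem main_coprime {l : ℕ} {x : JF → ℕ} (hx : x ∈ XJ m k l) (f : Fin 3) :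
    (mainV x f).Coprime (pr f) := by
  have h1 := main_mem hx
  unfold Xg at h1
  rw [Fintype.mem_piFinset] at h1
  have h2 := h1 f
  unfold Ug at h2
  rw [mem_insert, mem_filter] at h2
  rcases h2 with h2 | h2
  · rw [h2]
    exact Nat.coprime_one_left _
  · exact h2.2.2.1

theorem c0_res (hm : 0 < m) {l : ℕ} (w : Key → ℕ) {x : JF → ℕ} (hx : x ∈ XJ m k l) (f : Fin 3) :
    ((c0 m k l w x : ℕ) : ZMod (pr f ^ av (mL m k l) f)) =
      Lg (pr f) (av (mL m k l) f) (mainV x f) +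
        ((w (fkey l f (Helper25.T5.mk (pre (mL m k l) f) (mainV x))) : ℕ) :
          ZMod (pr f ^ av (mL m k l) f)) := by
  have hle : av (mL m k l) f ≤ aJ m k (sL m k l) (ef m k l 0) (Sum.inl f) :=
    aJ_le_of_le _ (Pool.Agent.Helper27.T5b.ef_bounds hm k l 0).1.le f
  have h1 : ((c0 m k l w x : ℕ) : ZMod (pr f ^ aJ m k (sL m k l) (ef m k l 0) (Sum.inl f))) =
      cmp0 m k l w x (Sum.inl f) :=
    cv_cast_comp (pJ_prime k (sL m k l)) (pJ_inj k (sL m k l))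
      (aJ m k (sL m k l) (ef m k l 0)) (cmp0 m k l w x) (Sum.inl f)
  have h2 := congrArg (ZMod.castHom (pow_dvd_pow (pr f) hle)
    (ZMod (pr f ^ av (mL m k l) f))) h1
  rw [map_natCast] at h2
  rw [h2]
  have h3 : cmp0 m k l w x (Sum.inl f) =
      Lg (pr f) (aJ m k (sL m k l) (ef m k l 0) (Sum.inl f)) (mainV x f) +
        ((w (fkey l f (Helper25.T5.mk (pre (mL m k l) f) (mainV x))) : ℕ) :
          ZMod (pr f ^ aJ m k (sL m k l) (ef m k l 0) (Sum.inl f))) := by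
    unfold cmp0
    rw [mask_eq]
    rfl
  have h4 := congrArg (ZMod.castHom (pow_dvd_pow (pr f) hle)
    (ZMod (pr f ^ av (mL m k l) f))) h3
  rw [map_add, map_natCast, Lg_red (pr_prime f) (pr_ne_two f) _ _ _ (main_coprime hx f) hle] at h4
  exact h4

theorem dvd_cs (hm : 0 < m) (k l t : ℕ) (w : Key → ℕ) (o : JF → ℕ) (y : Fin 3 → ℕ) (f : Fin 3) :
    pr f ^ av (mL m k l) f ∣ cs m k l t w o y := by
  unfold cs Side.cd lc Pool.Agent.Helper22.HW.fc
  apply Dvd.dvd.mul_right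
  show _ ∣ FF m k l (t + 1) * LL (QQ m k (sL m k l)) t
  apply Dvd.dvd.mul_right
  exact pow_dvd_Jn _ (Pool.Agent.Helper27.T5b.ef_bounds hm k l (t + 1)).1.le f

/-- **every element has the residues of an admissible main vector** -/
theorem AA_res (hm : 0 < m) {l : ℕ} {w : Key → ℕ} {z : ℕ} (hz : z ∈ AA m k l w) :
    ∃ x ∈ Xg pr (av (mL m k l)), Res pr (sd (mL m k l) (fkey l)) w z x := by
  unfold AA at hz
  rw [mem_image] at hz
  obtain ⟨⟨⟨x, y⟩, u⟩, hq, rfl⟩ := hz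
  rw [mem_product, mem_product, mem_image] at hq
  obtain ⟨⟨hx, _⟩, v, _, hu⟩ := hq
  simp only at hx hu
  subst hu
  refine ⟨mainV x, main_mem hx, ?_⟩
  intro f
  show (((c0 m k l w x + ∑ t : Fin (rL m k l), cs m k l t w (okey m k l t x) (y t)) +
    Un m k l * v : ℕ) : ZMod (pr f ^ av (mL m k l) f)) = _
  have hcs : (((∑ t : Fin (rL m k l), cs m k l t w (okey m k l t x) (y t) : ℕ)) :
      ZMod (pr f ^ av (mL m k l) f)) = 0 := by
    rw [ZMod.natCast_eq_zero_iff]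
    apply dvd_sum
    intro t _
    exact dvd_cs hm k l t w _ _ f
  have hv : (((Un m k l * v : ℕ)) : ZMod (pr f ^ av (mL m k l) f)) = 0 := by
    rw [ZMod.natCast_eq_zero_iff]
    unfold Un
    rw [mul_assoc]
    exact (pow_dvd_Jn _ le_rfl f).mul_right _
  rw [Nat.cast_add, Nat.cast_add, hcs, hv, add_zero, add_zero]
  exact c0_res hm w hx f

/-! ## counts -/

theorem Rp_le_repZ (hm : 0 < m) {l l' : ℕ} {w : Key → ℕ} {L : ℕ}
    (hL : ∀ z ∈ AA m k l' w, z < L) (n : ℕ) :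
    Rp m k l l' w n ≤ (repZ pr (sd (mL m k l) (fkey l)) (sd (mL m k l') (fkey l')) L n w).card := by
  unfold Rp
  refine card_le_card_of_injOn (fun q => q.1) ?_ ?_
  · intro q hq
    rw [mem_coe, mem_filter, mem_product] at hq
    obtain ⟨⟨h1, h2⟩, h3⟩ := hq
    simp only [repZ, coe_filter, Set.mem_ofPred_eq, mem_range]
    obtain ⟨x, hx, hr⟩ := AA_res hm h1
    obtain ⟨x', hx', hr'⟩ := AA_res hm h2
    have h4 := hL _ h2
    refine ⟨by omega, by omega, x, hx, x', hx', hr, ?_⟩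
    have h5 : n - q.1 = q.2 := by omega
    rw [h5]
    exact hr'
  · intro q hq q' hq' h
    rw [mem_coe, mem_filter] at hq hq'
    have h1 := hq.2
    have h2 := hq'.2
    have h3 : q.1 = q'.1 := h
    exact Prod.ext h3 (by omega)

open Classical in
theorem Rp_le_win (hm : 0 < m) {l l' : ℕ} {w : Key → ℕ} {L : ℕ}
    (hL : ∀ z ∈ AA m k l' w, z < L) (n : ℕ) :
    Rp m k l l' w n ≤ ((Finset.Ico (n + 1 - L) (n + 1 - L + L)).filter
      (fun z => ∃ x ∈ Xg pr (av (mL m k l)), Res pr (sd (mL m k l) (fkey l)) w z x)).card := by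
  unfold Rp
  refine card_le_card_of_injOn (fun q => q.1) ?_ ?_
  · intro q hq
    rw [mem_coe, mem_filter, mem_product] at hq
    obtain ⟨⟨h1, h2⟩, h3⟩ := hq
    simp only [coe_filter, Set.mem_ofPred_eq, mem_Ico]
    have h4 := hL _ h2
    exact ⟨⟨by omega, by omega⟩, AA_res hm h1⟩
  · intro q hq q' hq' h
    rw [mem_coe, mem_filter] at hq hq'
    have h1 := hq.2
    have h2 := hq'.2
    have h3 : q.1 = q'.1 := h
    exact Prod.ext h3 (by omega)

theorem lt_of_Rp {l l' : ℕ} {w : Key → ℕ} {L L' : ℕ} (hL : ∀ z ∈ AA m k l w, z < L)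
    (hL' : ∀ z ∈ AA m k l' w, z < L') {n : ℕ} (h : 0 < Rp m k l l' w n) : n < L + L' := by
  unfold Rp at h
  obtain ⟨q, hq⟩ := card_pos.1 h
  rw [mem_filter, mem_product] at hq
  have h1 := hL _ hq.1.1
  have h2 := hL' _ hq.1.2
  have h3 := hq.2
  omega

/-- range of the sums -/
theorem exists_range_size (hm : 2 ≤ m) (k : ℕ) : ∃ l0, ∀ l ≥ l0,
    2 * (NL m k (l + 1) : ℝ) ≤ Real.exp (100 * (mL m k l : ℝ)) := by
  have hm0 : 0 < m := by omega
  obtain ⟨l0, h0⟩ := exists_NL_garb hm k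
  obtain ⟨l1', h1'⟩ := Pool.Agent.Helper30.T5b.exists_late (k := k) hm0 0 0
  refine ⟨max l0 l1', fun l hl => ?_⟩
  have a1 := h0 l ((le_max_left _ _).trans hl)
  obtain ⟨_, a2, a3, _, _⟩ := h1' l ((le_max_right _ _).trans hl)
  have a2' : bb 0 ≤ mL m k l := a2
  have a4 := Gm_small (k := k) hm0 (j := era (mL m k l)) a3
  have a5 := (Pool.Agent.Helper27.T4.era_spec (mL m k l) a2').1
  set x := mL m k l with hx
  set G := Gm m k (era x) with hG
  have b1 : G ≤ x :=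
    ((Nat.le_mul_of_pos_left G (by positivity : 0 < 2 ^ 200)).trans a4).trans a5
  have b2 : (G : ℝ) ≤ x := by exact_mod_cast b1
  have b3 : (Nj x : ℝ) ≤ Real.exp (14 * (x : ℝ)) := by
    have c1 : (Nj x : ℝ) ≤ (1000037 : ℝ) ^ x := by
      exact_mod_cast Pool.Agent.Helper30.ET.Nj_le_pow x
    have c2 : (1000037 : ℝ) ≤ Real.exp 14 := le_trans (by norm_num) buf_le_exp
    rw [mul_comm, Real.exp_nat_mul]
    exact c1.trans (pow_le_pow_left₀ (by norm_num) c2 x)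
  have b4 : (1 : ℝ) ≤ x := by
    have : 1 ≤ x := by
      have := Pool.Agent.Helper27.T4.bb_ge_pow 0
      omega
    exact_mod_cast this
  have b5 : (2 : ℝ) ≤ Real.exp 1 := by
    have := Real.add_one_le_exp (1 : ℝ)
    linarith
  calc 2 * (NL m k (l + 1) : ℝ) ≤ Real.exp 1 * (Real.exp (14 * (x : ℝ)) * Real.exp (14 * (G : ℝ))) :=
        mul_le_mul b5 (a1.trans (mul_le_mul_of_nonneg_right b3 (Real.exp_pos _).le))
          (Nat.cast_nonneg _) (Real.exp_pos _).le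
    _ = Real.exp (1 + (14 * (x : ℝ) + 14 * (G : ℝ))) := by
        rw [Real.exp_add, Real.exp_add]
    _ ≤ _ := by
        apply Real.exp_le_exp.2
        linarith

/-- **FAR for a pair of states** -/
theorem far_pair (hm : 2 ≤ m) (k : ℕ) : ∃ l0 : ℕ, ∀ l l' : ℕ, l0 ≤ l' → l' ≤ l →
    mL m k l' + 175 * Gm m k (era (mL m k l')) ≤ mL m k l →
    ∀ K : Finset Key, keysOf m k l ⊆ K → keysOf m k l' ⊆ K →
    PrLe (Mk m k) K (fun w => ∃ n,
      20000 + (10 ^ 8 * mL m k l / (mL m k l - mL m k l') + 2) ^ 64 < Rp m k l l' w n)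
      (Real.exp (-(mL m k l : ℝ))) := by
  have hm0 : 0 < m := by omega
  obtain ⟨n0, h2⟩ := far2_pr
  obtain ⟨n1, h1⟩ := far1_pr
  obtain ⟨n2, hlate⟩ := Pool.Agent.Helper30.T5b.exists_late (k := k) hm0 (n0 + n1) 0
  obtain ⟨n3, hrange⟩ := Pool.Agent.Helper27.T5b.exists_AA_range hm0 k
  obtain ⟨n4, hfs⟩ := exists_far_size hm k
  obtain ⟨n5, hos⟩ := exists_one_size hm k
  obtain ⟨n6, hrs⟩ := exists_range_size hm k
  refine ⟨n2 + n3 + n4 + n5 + n6, ?_⟩
  intro l l' hl' hll hfar K hK hK'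
  obtain ⟨e1, e2, e3, _, _⟩ := hlate l (by omega)
  obtain ⟨e1', e2', e3', _, _⟩ := hlate l' (by omega)
  have f2 : bb 0 ≤ mL m k l := e2
  have f2' : bb 0 ≤ mL m k l' := e2'
  have f1 : n0 + n1 ≤ mL m k l := e1
  have hGp : 2 ^ 250 ≤ Gm m k (era (mL m k l')) :=
    (SS_ge hm0 _).trans (SS_lv_le_Gm m k _)
  have hG1 : 20000 ≤ Gm m k (era (mL m k l')) :=
    le_trans (le_trans (by norm_num : 20000 ≤ 2 ^ 15)
      (Nat.pow_le_pow_right (by norm_num) (by norm_num))) hGp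
  have hne : l ≠ l' := by
    rintro rfl
    omega
  have hy : mL m k l' ≤ mL m k l := by omega
  have hlay := lay_real hm0 f2 hK
  have hlay' := lay_real hm0 f2' hK'
  have hLa : ∀ w : Key → ℕ, ∀ z ∈ AA m k l w, z < NL m k (l + 1) :=
    fun w z hz => (hrange l (by omega) w z hz).2.2
  have hLa' : ∀ w : Key → ℕ, ∀ z ∈ AA m k l' w, z < NL m k (l' + 1) :=
    fun w z hz => (hrange l' (by omega) w z hz).2.2
  have hN : ((NL m k (l + 1) + NL m k (l' + 1) : ℕ) : ℝ) ≤ Real.exp (100 * (mL m k l : ℝ)) := by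
    have c1 := hrs l (by omega)
    have c2 : NL m k (l' + 1) ≤ NL m k (l + 1) :=
      Pool.Agent.Helper30.T5b.NL_mono m k (by omega)
    have c3 : (NL m k (l' + 1) : ℝ) ≤ NL m k (l + 1) := by exact_mod_cast c2
    rw [Nat.cast_add]
    linarith
  have hdiv := Nat.lt_mul_div_succ (10 ^ 8 * mL m k l) (show 0 < mL m k l - mL m k l' by omega)
  rw [Nat.mul_comm (mL m k l - mL m k l')] at hdiv
  by_cases h5 : mL m k l ≤ 5 * mL m k l'
  · have h3 := h2 (mL m k l) (mL m k l') (by omega) h5 hy (by omega) (Mk m k) K (fkey l)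
      (fkey l') hlay hlay' (fun f g x _ y _ => key_ne hne f g _ _) (NL m k (l' + 1))
      (NL m k (l + 1) + NL m k (l' + 1)) (10 ^ 8 * mL m k l / (mL m k l - mL m k l') + 1)
      (hfs l' (by omega) _ hfar) hN hdiv.le
    refine PrLe_mono (fun r _ hw => ?_) le_rfl h3
    obtain ⟨n, hn⟩ := hw
    have d1 := Rp_le_repZ hm0 (hLa' (ext K r)) n (l := l) (k := k)
    have d2 := lt_of_Rp (hLa (ext K r)) (hLa' (ext K r))
      (show 0 < Rp m k l l' (ext K r) n from lt_of_le_of_lt (Nat.zero_le _) hn)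
    have d3 : 10 ^ 8 * mL m k l / (mL m k l - mL m k l') + 1 + 1 =
        10 ^ 8 * mL m k l / (mL m k l - mL m k l') + 2 := by rw [add_assoc]
    refine ⟨n, d2, ?_⟩
    rw [d3]
    exact ((Nat.le_add_left _ _).trans hn.le).trans d1
  · have hsz := hos l' (by omega) (mL m k l) (by omega)
    set j := 41 * mL m k l / 200 with hjdef
    have h3 := h1 (mL m k l) (by omega) j (by omega) (Mk m k) K (fkey l) hlay
      (NL m k (l + 1) + NL m k (l' + 1)) hN
    refine PrLe_mono (fun r _ hw => ?_) le_rfl h3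
    obtain ⟨n, hn⟩ := hw
    have d1 := Rp_le_win (l := l) (k := k) hm0
      (fun z hz => (hLa' (ext K r) z hz).trans_le hsz) n
    have d2 := lt_of_Rp (hLa (ext K r)) (hLa' (ext K r))
      (show 0 < Rp m k l l' (ext K r) n from lt_of_le_of_lt (Nat.zero_le _) hn)
    have d3 : 0 < Nj j := Pool.Agent.Helper27.T5.Nj_pos1 j
    refine ⟨n + 1 - Nj j, ?_, ((Nat.le_add_right _ _).trans_lt hn).trans_le d1⟩
    have d4 : n + 1 - Nj j ≤ n := by omega
    exact d4.trans_lt d2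

/-! ## the form `PairOK` -/

/-- **the two blocks together** -/
theorem far_ok (hm : 2 ≤ m) (P : ℕ → ℕ → Prop) {K1 : ℕ} (hP : ∀ l l', K1 ≤ l' → l' ≤ l →
      P l' l → mL m (m ^ 2) l' + 175 * Gm m (m ^ 2) (era (mL m (m ^ 2) l')) ≤ mL m (m ^ 2) l) :
    PairOK m P (RpC m (m ^ 2)) 192 := by
  have hm0 : 0 < m := by omega
  obtain ⟨n0, hfar⟩ := far_pair hm (m ^ 2)
  obtain ⟨n1, hmult⟩ := exists_mult hm (m ^ 2)
  obtain ⟨n2, hlate⟩ := Pool.Agent.Helper30.T5b.exists_late (k := m ^ 2) hm0 0 0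
  refine ⟨n0 + n1 + n2 + K1 + 16, 20000 + (3 * 10 ^ 8) ^ 64, 1 / 2, 1, by positivity, by norm_num,
    by norm_num, ?_⟩
  intro l l' hl' hll hp K hK hK'
  have hgap := hP l l' (by omega) hll hp
  have hpr := hfar l l' (by omega) hll hgap K hK hK'
  have hmu := hmult l' (by omega) l hll
  obtain ⟨_, e2, _, _, e5⟩ := hlate l (by omega)
  have e5' : 1000 * l ≤ 1001 * mL m (m ^ 2) l := e5
  have hlR : (16 : ℝ) ≤ l := by exact_mod_cast (show 16 ≤ l by omega)
  have hl0 : (0 : ℝ) < l := by linarith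
  have hpw1 : (1 : ℝ) ≤ (l : ℝ) ^ ((3 : ℝ) / m) :=
    Real.one_le_rpow (by linarith) (by positivity)
  set M := mL m (m ^ 2) l with hM
  set M' := mL m (m ^ 2) l' with hM'
  set G := Gm m (m ^ 2) (era M') with hG
  have hGp : 0 < G := Gm_pos _ _ _
  have hD : 175 * G ≤ M - M' := by omega
  have hDR : (0 : ℝ) < ((M - M' : ℕ) : ℝ) := by
    have : 0 < M - M' := by omega
    exact_mod_cast this
  -- the ratio
  have hratio : (M : ℝ) / ((M - M' : ℕ) : ℝ) ≤ 2 * (l : ℝ) ^ ((3 : ℝ) / m) := by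
    rw [div_le_iff₀ hDR]
    by_cases h5 : M ≤ 5 * M'
    · have h6 := hmu h5
      have h7 : (175 : ℝ) * G ≤ ((M - M' : ℕ) : ℝ) := by exact_mod_cast hD
      have hG0 : (0 : ℝ) ≤ G := Nat.cast_nonneg _
      calc (M : ℝ) ≤ 160 * (l : ℝ) ^ ((3 : ℝ) / m) * (G : ℝ) := h6
        _ ≤ 2 * (l : ℝ) ^ ((3 : ℝ) / m) * (175 * (G : ℝ)) := by nlinarith
        _ ≤ _ := mul_le_mul_of_nonneg_left h7 (by positivity)
    · have h7 : M ≤ 2 * (M - M') := by omega
      have h8 : (M : ℝ) ≤ 2 * ((M - M' : ℕ) : ℝ) := by exact_mod_cast h7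
      refine h8.trans ?_
      nlinarith
  have hbase : ((10 ^ 8 * M / (M - M') + 2 : ℕ) : ℝ) ≤ 3 * 10 ^ 8 * (l : ℝ) ^ ((3 : ℝ) / m) := by
    have h6 : ((10 ^ 8 * M / (M - M') : ℕ) : ℝ) ≤ ((10 ^ 8 * M : ℕ) : ℝ) / ((M - M' : ℕ) : ℝ) :=
      Nat.cast_div_le
    have h7 : ((10 ^ 8 * M : ℕ) : ℝ) / ((M - M' : ℕ) : ℝ) =
        10 ^ 8 * ((M : ℝ) / ((M - M' : ℕ) : ℝ)) := by
      push_cast
      ring
    rw [Nat.cast_add]
    have h8 : (10 : ℝ) ^ 8 * ((M : ℝ) / ((M - M' : ℕ) : ℝ)) ≤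
        10 ^ 8 * (2 * (l : ℝ) ^ ((3 : ℝ) / m)) :=
      mul_le_mul_of_nonneg_left hratio (by positivity)
    rw [h7] at h6
    push_cast at h6 ⊢
    nlinarith
  have hpow : ((20000 + (10 ^ 8 * M / (M - M') + 2) ^ 64 : ℕ) : ℝ) ≤
      (20000 + (3 * 10 ^ 8) ^ 64) * (l : ℝ) ^ (((192 : ℕ) : ℝ) / (m : ℝ)) := by
    have h6 : (((10 ^ 8 * M / (M - M') + 2) ^ 64 : ℕ) : ℝ) ≤
        (3 * 10 ^ 8) ^ 64 * (l : ℝ) ^ (((192 : ℕ) : ℝ) / (m : ℝ)) := by
      rw [Nat.cast_pow]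
      refine (pow_le_pow_left₀ (Nat.cast_nonneg _) hbase 64).trans (le_of_eq ?_)
      rw [mul_pow]
      congr 1
      rw [← Real.rpow_natCast, ← Real.rpow_mul hl0.le]
      congr 1
      push_cast
      ring
    have h7 : (1 : ℝ) ≤ (l : ℝ) ^ (((192 : ℕ) : ℝ) / (m : ℝ)) :=
      Real.one_le_rpow (by linarith) (by positivity)
    rw [Nat.cast_add, add_mul]
    apply add_le_add _ h6
    push_cast
    linarith
  have hexp : Real.exp (-(M : ℝ)) ≤ 1 * Real.exp (-((l : ℝ) ^ (1 / 2 : ℝ))) := by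
    rw [one_mul]
    apply Real.exp_le_exp.2
    apply neg_le_neg
    have h6 : (l : ℝ) ^ (1 / 2 : ℝ) ≤ l / 4 := by
      rw [← Real.sqrt_eq_rpow, Real.sqrt_le_left (by positivity)]
      nlinarith
    have h7 : (1000 : ℝ) * l ≤ 1001 * M := by exact_mod_cast e5'
    linarith
  refine PrLe_mono (fun r _ hw => ?_) hexp hpr
  obtain ⟨c, ⟨n, rfl⟩, hc⟩ := hw
  refine ⟨n, ?_⟩
  have h9 := hpow.trans_lt hc
  exact_mod_cast h9

/-- **FAR** -/
theorem far : Blk CaseFar RpC :=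
  ⟨192, 2, fun _ hm => far_ok hm _ (K1 := 0) (fun _ _ _ _ h => by
    have := far_gap h
    omega)⟩

/-- **the crude pairs across SPLIT** -/
theorem splitCrude : Blk CaseSplitCrude RpC := by
  refine ⟨192, 2, fun m hm => ?_⟩
  have hm0 : 0 < m := by omega
  obtain ⟨n2, hlate⟩ := Pool.Agent.Helper30.T5b.exists_late (k := m ^ 2) hm0 0 0
  refine far_ok hm _ (K1 := n2) (fun l l' h1 h2 h => ?_)
  obtain ⟨_, e2, e3, _, _⟩ := hlate l' h1
  have := crude_gap hm0 h2 e2 e3 h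
  omega

end Pool.Agent.Helper29.T5b
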