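import Pool.Agent.Helper27.T5b.Basic
import Pool.Agent.Helper45.T5b.Outer
import Pool.Agent.Helper37.T5b.Prod

/-!
# T5b (MP_12a1af), line 1: the modulus of a state against its main digits

`NL m k (l + 1) ≤ Nj (mL m k l) * exp (14 * Gm)` for late `l`, where `2 ^ 12 * Gm = ZZ`.
-/

set_option autoImplicit false

namespace Pool.Agent.Helper29.T5b

open Finset Pool.Agent.Helper5.ET Pool.Agent.Helper27.T4
open Pool.Agent.Helper37.T5b Pool.Agent.Helper84.T5b
open Pool.Agent.Helper27.T5b (l1 ct ct_main ct_mono)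
open Pool.Agent.Helper30.T5b (pz QF QT RT PZ ez NL BP RT_succ RT_pos QT_pos)

variable {m k : ℕ}

/-- size of the levels which exist in the era `j` -/
def Gm (m k j : ℕ) : ℕ := if spec m k j then SS m (lv m k j + 1) else SS m (lv m k j)

theorem ZZ_eq (m k j : ℕ) : ZZ m k j = 2 ^ 12 * Gm m k j := by
  unfold ZZ Gm Zt
  split_ifs <;> rfl

theorem Gm_pos (m k j : ℕ) : 0 < Gm m k j := by
  unfold Gm
  split_ifs <;> exact SS_pos _ _

theorem SS_lv_le_Gm (m k j : ℕ) : SS m (lv m k j) ≤ Gm m k j := by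
  unfold Gm
  split_ifs
  · exact SS_mono m (Nat.le_succ _)
  · exact le_rfl

theorem Gm_small (hm : 0 < m) {j : ℕ} (hj : kt m k ≤ j) : 2 ^ 200 * Gm m k j ≤ bb j := by
  have h1 := ZZ_small hm hj
  rw [ZZ_eq] at h1
  have h2 : 2 ^ 200 * Gm m k j ≤ 2 ^ 200 * (2 ^ 12 * Gm m k j) :=
    Nat.mul_le_mul_left _ (Nat.le_mul_of_pos_left _ (by norm_num))
  exact h2.trans h1

/-! ## late states have many levels -/

theorem exists_lv (hm : 0 < m) (k t0 : ℕ) : ∃ l0, ∀ l ≥ l0, t0 < lv m k (era (mL m k l)) := by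
  obtain ⟨l0, h0⟩ := Pool.Agent.Helper30.T5b.exists_late (k := k) hm 0 (kt m (t0 + 1) + 1)
  refine ⟨l0, fun l hl => ?_⟩
  obtain ⟨_, _, _, h4, _⟩ := h0 l hl
  exact (lt_lv_iff hm).2 (Or.inr (by
    have : kt m (t0 + 1) + 1 ≤ era (mL m k l) := h4
    omega))

theorem mul_le_two_pow {A q : ℕ} (h1 : A ≤ q) (h2 : 4 ≤ q) : A * q ≤ 2 ^ q := by
  have h3 : ∀ n : ℕ, 4 ≤ n → n * n ≤ 2 ^ n := by
    intro n hn
    induction n, hn using Nat.le_induction with
    | base => norm_num
    | succ n hn ih =>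
      rw [pow_succ]
      nlinarith
  exact (Nat.mul_le_mul_right q h1).trans (h3 q h2)

/-- the buffer is small -/
theorem exists_buf (hm : 2 ≤ m) (k C : ℕ) : ∃ l0, ∀ l ≥ l0,
    C * ct (ins m k) own (ex m k) (Sum.inr none) l ≤ SS m (lv m k (era (mL m k l))) := by
  have hm0 : 0 < m := by omega
  obtain ⟨l0, h0⟩ := Pool.Agent.Helper30.T5b.exists_late (k := k) hm0 0 0
  obtain ⟨l1', h1'⟩ := exists_lv hm0 k (m * (C * 18 * m + 4) + 1)
  refine ⟨max l0 l1', fun l hl => ?_⟩
  obtain ⟨_, hy, _, _, _⟩ := h0 l ((le_max_left _ _).trans hl)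
  have hlv := h1' l ((le_max_right _ _).trans hl)
  set y := mL m k l with hydef
  obtain ⟨t, ht⟩ : ∃ t, lv m k (era y) = t + 1 := ⟨lv m k (era y) - 1, by omega⟩
  have a1 := ct_none_le (k := k) hm0 (l := l) hy
  have a2 : ∀ j ∈ range (era (l1 (ins m k) l) + 1), RB m (lv m k j) ≤ SS m t := by
    intro j hj
    rw [mem_range] at hj
    have b1 : lv m k j ≤ t + 1 := by
      rw [← ht]
      exact lv_mono hm0 k (by
        show j ≤ era (l1 (ins m k) l)
        omega)
    have b2 : SS m (lv m k j - 1) ≤ SS m t := SS_mono m (by omega)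
    unfold RB
    have b3 := Nat.div_mul_le_self (SS m (lv m k j - 1)) (2 ^ 9)
    norm_num at b3 ⊢
    omega
  have a3 := a1.trans (Finset.sum_le_card_nsmul _ _ _ a2)
  rw [card_range, smul_eq_mul] at a3
  -- the number of eras
  have a4 : era y + 1 ≤ 18 * aa m t := by
    have c1 := Pool.Agent.Helper45.T5b.two_pow_le_bb (era y)
    have c2 := bb_lt_of_lv hm0 k (era y)
    rw [ht] at c2
    have c3 : SS m (t + 1 + 2) = 2 ^ aa m (t + 3) := rfl
    rw [c3] at c2
    have c4 : 2 ^ (era y / 2) < 2 ^ (aa m (t + 3) + 1) := by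
      rw [pow_succ]
      omega
    have c5 := (Nat.pow_lt_pow_iff_right (by norm_num)).1 c4
    have c6 := Pool.Agent.Helper45.T5b.aa_succ_le hm t
    have c7 : aa m (t + 2) ≤ 2 * aa m (t + 1) := Pool.Agent.Helper45.T5b.aa_succ_le hm (t + 1)
    have c8 : aa m (t + 3) ≤ 2 * aa m (t + 2) := Pool.Agent.Helper45.T5b.aa_succ_le hm (t + 2)
    have c9 := aa_ge' hm0 t
    omega
  have a5 : C * (era y + 1) ≤ 2 ^ (aa m t / m + 1) := by
    set q := aa m t / m + 1 with hq
    have c1 : aa m t ≤ m * q := by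
      have := Nat.lt_mul_div_succ (aa m t) hm0
      rw [hq]
      omega
    have c2 : C * 18 * m + 4 ≤ q := by
      have d1 := aa_ge hm0 t
      have d2 : m * (C * 18 * m + 4) ≤ aa m t := by
        have : 400 * m * m + 400 * t = 400 * m * m + 399 * t + t := by ring
        omega
      have d3 : C * 18 * m + 4 ≤ aa m t / m := by
        rw [Nat.le_div_iff_mul_le hm0, mul_comm]
        exact d2
      omega
    calc C * (era y + 1) ≤ C * (18 * (m * q)) :=
          Nat.mul_le_mul_left _ (a4.trans (Nat.mul_le_mul_left _ c1))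
      _ = (C * 18 * m) * q := by ring
      _ ≤ 2 ^ q := mul_le_two_pow (by omega) (by omega)
  calc C * ct (ins m k) own (ex m k) (Sum.inr none) l ≤ C * ((era y + 1) * SS m t) :=
        Nat.mul_le_mul_left _ a3
    _ = (C * (era y + 1)) * SS m t := by ring
    _ ≤ 2 ^ (aa m t / m + 1) * SS m t := Nat.mul_le_mul_right _ a5
    _ = SS m (lv m k (era y)) := by rw [ht, SS_succ, mul_comm]

/-! ## the modulus -/

theorem TJ_le (hm : 0 < m) (k t l : ℕ) : Pool.Agent.Helper48.T5b.TJ m k t l ≤ QT m k t := by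
  unfold Pool.Agent.Helper48.T5b.TJ QT QF
  apply prod_le_prod'
  intro f _
  exact Nat.pow_le_pow_right (Pool.Agent.Helper30.T5b.pz_pos _ _ _) (ct_some_le_zf hm t f l)

theorem TJ_one (hm : 0 < m) {k t l : ℕ} (h : mL m k l ≤ ut m t) :
    Pool.Agent.Helper48.T5b.TJ m k t l = 1 := by
  unfold Pool.Agent.Helper48.T5b.TJ
  apply prod_eq_one
  intro f _
  have h1 : ct (ins m k) own (ex m k) (Sum.inr (some (t, f))) l = 0 := ct_before hm f h
  show pz k t f ^ ct (ins m k) own (ex m k) (Sum.inr (some (t, f))) l = 1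
  rw [h1, pow_zero]

/-- **garbage of a state** -/
theorem NL_le_garb (hm : 0 < m) {l : ℕ} (hl : bb 0 ≤ mL m k l) :
    NL m k l ≤ Nj (mL m k l) * (1000039 ^ ct (ins m k) own (ex m k) (Sum.inr none) l *
      (10 ^ 6) ^ Gm m k (era (mL m k l))) := by
  set y := mL m k l with hydef
  have h1 := Pool.Agent.Helper27.T5b.Jn_mul_RT (Pool.Agent.Helper27.T5b.cpl_self (k := k) hm hl)
  rw [Pool.Agent.Helper27.T5b.Jn_eq_JJ] at h1
  unfold Pool.Agent.Helper48.T5b.JJ Pool.Agent.Helper48.T5b.J0 at h1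
  have h2 : Nj y = ∏ f : Fin 3, pr f ^ cnt f (Pool.Agent.Helper48.T5b.L1 m k l) :=
    Pool.Agent.Helper30.ET.Nj_eq_prod_fam _
  have key : Pool.Agent.Helper48.T5b.TJ m k (sL m k l + 1) l * RT m k (sL m k l) ≤
      (10 ^ 6) ^ Gm m k (era y) := by
    have hsp := era_spec y hl
    have hlen := bb_add_len (era y)
    by_cases hS : spec m k (era y)
    · have hG : Gm m k (era y) = SS m (lv m k (era y) + 1) := by
        unfold Gm
        rw [if_pos hS]
      rw [hG]
      by_cases hs : sL m k l = lv m k (era y) + 1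
      · rw [hs, TJ_one hm, one_mul]
        · exact Pool.Agent.Helper30.T5b.RT_le hm k _
        · have c1 : kt m (lv m k (era y) + 1) < kt m (lv m k (era y) + 1 + 1) :=
            kt_strictMono hm (Nat.lt_succ_self _)
          have c2 : kt m (lv m k (era y) + 1) = era y := hS
          have c3 := bb_strictMono.monotone (show era y + 1 ≤ kt m (lv m k (era y) + 1 + 1) by omega)
          have c4 := bb_le_ut m (lv m k (era y) + 1 + 1)
          show y ≤ _
          omega
      · have hs' : sL m k l = lv m k (era y) := by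
          have d1 := lv_le_sv m k y
          have d2 := sv_le_lv_succ m k y
          have d3 : sL m k l = sv m k y := rfl
          omega
        rw [hs']
        calc Pool.Agent.Helper48.T5b.TJ m k (lv m k (era y) + 1) l * RT m k (lv m k (era y)) ≤
              QT m k (lv m k (era y) + 1) * RT m k (lv m k (era y)) :=
              Nat.mul_le_mul_right _ (TJ_le hm k _ l)
          _ = RT m k (lv m k (era y) + 1) := by rw [RT_succ, mul_comm]
          _ ≤ _ := Pool.Agent.Helper30.T5b.RT_le hm k _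
    · have hG : Gm m k (era y) = SS m (lv m k (era y)) := by
        unfold Gm
        rw [if_neg hS]
      have hs : sL m k l = lv m k (era y) := by
        show sv m k y = _
        unfold sv
        rw [if_neg (fun h => hS h.1), add_zero]
      rw [hG, hs, TJ_one hm, one_mul]
      · exact Pool.Agent.Helper30.T5b.RT_le hm k _
      · have c1 := le_kt_lv hm k (era y)
        have c2 : kt m (lv m k (era y) + 1) ≠ era y := hS
        have c3 := bb_strictMono.monotone (show era y + 1 ≤ kt m (lv m k (era y) + 1) by omega)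
        have c4 := bb_le_ut m (lv m k (era y) + 1)
        show y ≤ _
        omega
  rw [← h1, ← h2]
  calc Nj y * 1000039 ^ Pool.Agent.Helper48.T5b.cT m k (Sum.inr none) l *
        Pool.Agent.Helper48.T5b.TJ m k (sL m k l + 1) l * RT m k (sL m k l) =
        Nj y * (1000039 ^ Pool.Agent.Helper48.T5b.cT m k (Sum.inr none) l *
          (Pool.Agent.Helper48.T5b.TJ m k (sL m k l + 1) l * RT m k (sL m k l))) := by ring
    _ ≤ _ := Nat.mul_le_mul_left _ (Nat.mul_le_mul_left _ key)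

theorem million_le_exp : ((10 : ℝ) ^ 6) ≤ Real.exp (139 / 10) := by
  have h1 := Real.exp_one_gt_d9
  have h2 : Real.exp (139 / 10) = Real.exp 1 ^ 14 * Real.exp (-(1 / 10)) := by
    rw [← Real.exp_nat_mul, ← Real.exp_add]
    norm_num
  have h3 : (9 / 10 : ℝ) ≤ Real.exp (-(1 / 10)) := by
    have := Real.add_one_le_exp (-(1 / 10) : ℝ)
    linarith
  have h4 : (2.7182818283 : ℝ) ^ 14 ≤ Real.exp 1 ^ 14 := pow_le_pow_left₀ (by norm_num) h1.le 14
  rw [h2]
  calc (10 : ℝ) ^ 6 ≤ (2.7182818283 : ℝ) ^ 14 * (9 / 10) := by norm_num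
    _ ≤ Real.exp 1 ^ 14 * Real.exp (-(1 / 10)) :=
        mul_le_mul h4 h3 (by norm_num) (by positivity)

theorem buf_le_exp : (1000039 : ℝ) ≤ Real.exp 14 := by
  have h1 := Real.exp_one_gt_d9
  have h2 : Real.exp 14 = Real.exp 1 ^ 14 := by
    rw [← Real.exp_nat_mul]
    norm_num
  have h4 : (2.7182818283 : ℝ) ^ 14 ≤ Real.exp 1 ^ 14 := pow_le_pow_left₀ (by norm_num) h1.le 14
  rw [h2]
  exact le_trans (by norm_num) h4

/-- **the modulus of a late state**: `NL (l + 1) ≤ Nj (main digits) * exp (14 * Gm)` -/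
theorem exists_NL_garb (hm : 2 ≤ m) (k : ℕ) : ∃ l0, ∀ l ≥ l0,
    (NL m k (l + 1) : ℝ) ≤ Nj (mL m k l) * Real.exp (14 * (Gm m k (era (mL m k l)) : ℝ)) := by
  have hm0 : 0 < m := by omega
  obtain ⟨l0, h0⟩ := Pool.Agent.Helper30.T5b.exists_late (k := k) hm0 0 0
  obtain ⟨l1', h1'⟩ := exists_buf hm k 280
  obtain ⟨t0, ht0⟩ : ∃ t0 : ℕ, ∀ t ≥ t0, 20 * BP k ≤ SS m t :=
    (Pool.Agent.Helper30.T5b.exists_mul_le_SS hm0 (20 * BP k)).imp fun t0 h t ht =>
      (Nat.le_mul_of_pos_right _ (Nat.succ_pos t)).trans (h t ht)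
  obtain ⟨l2, h2⟩ := exists_lv hm0 k t0
  refine ⟨max l0 (max l1' l2), fun l hl => ?_⟩
  obtain ⟨_, hy, _, _, _⟩ := h0 l (by omega)
  have a1 := h1' l (by omega)
  have a2 := ht0 _ (h2 l (by omega)).le
  have a3 := NL_le_garb hm0 hy
  have a4 := Pool.Agent.Helper30.T5b.NL_succ_le m k l
  set G := Gm m k (era (mL m k l)) with hG
  have a5 : SS m (lv m k (era (mL m k l))) ≤ G := SS_lv_le_Gm m k _
  set c := ct (ins m k) own (ex m k) (Sum.inr none) l with hc
  have b1 : (1000039 : ℝ) ^ c ≤ Real.exp (14 * (c : ℝ)) := by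
    rw [mul_comm, Real.exp_nat_mul]
    exact pow_le_pow_left₀ (by norm_num) buf_le_exp c
  have b2 : ((10 : ℝ) ^ 6) ^ G ≤ Real.exp (139 / 10 * (G : ℝ)) := by
    rw [mul_comm, Real.exp_nat_mul]
    exact pow_le_pow_left₀ (by norm_num) million_le_exp G
  have b3 : (BP k : ℝ) ≤ Real.exp (BP k : ℝ) := by
    have := Real.add_one_le_exp (BP k : ℝ)
    linarith
  have b4 : (280 : ℝ) * c ≤ G := by exact_mod_cast a1.trans a5
  have b5 : (20 : ℝ) * BP k ≤ G := by exact_mod_cast a2.trans a5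
  have b6 : (NL m k (l + 1) : ℝ) ≤ BP k * (Nj (mL m k l) * (1000039 ^ c * (10 ^ 6) ^ G)) := by
    exact_mod_cast a4.trans (Nat.mul_le_mul_left _ a3)
  have hN : (0 : ℝ) ≤ Nj (mL m k l) := Nat.cast_nonneg _
  calc (NL m k (l + 1) : ℝ) ≤ BP k * (Nj (mL m k l) * (1000039 ^ c * (10 ^ 6) ^ G)) := b6
    _ = Nj (mL m k l) * (BP k * (1000039 ^ c * (10 ^ 6) ^ G)) := by ring
    _ ≤ Nj (mL m k l) * (Real.exp (BP k : ℝ) * (Real.exp (14 * (c : ℝ)) *
          Real.exp (139 / 10 * (G : ℝ)))) := by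
        apply mul_le_mul_of_nonneg_left _ hN
        apply mul_le_mul b3 _ (by positivity) (Real.exp_pos _).le
        exact mul_le_mul b1 b2 (by positivity) (Real.exp_pos _).le
    _ = Nj (mL m k l) * Real.exp ((BP k : ℝ) + (14 * (c : ℝ) + 139 / 10 * (G : ℝ))) := by
        rw [Real.exp_add, Real.exp_add]
    _ ≤ _ := by
        apply mul_le_mul_of_nonneg_left _ hN
        apply Real.exp_le_exp.2
        linarith

end Pool.Agent.Helper29.T5b
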